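import Pool.Agent.Helper54.DT.StmtsH

/-!
# The meaning of the formulas (module EVF)
-/

namespace Pool.Agent.Helper88.DCT

open Finset Pool.Agent.Helper54.DT Pool.Agent.Helper54.ETR Pool.Agent.Helper54.Poly
  Pool.Agent.Helper54.DI

theorem evf_nuO (x : ℕ → ℝ) : ∀ n : ℕ, (nuO oT n).eval x = n
  | 0 => by
    rw [Nat.cast_zero]
    rfl
  | n + 1 => by
    rw [Nat.cast_add, Nat.cast_one, ← evf_nuO x n]
    rfl

theorem evf_cons (x : ℕ → ℝ) (t : Term) (l : List Term) :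
    (sumO oT (t :: l)).eval x = t.eval x + (sumO oT l).eval x := rfl

theorem evf_nil (x : ℕ → ℝ) : (sumO oT []).eval x = 0 := rfl

theorem evf_app (x : ℕ → ℝ) : ∀ l l' : List Term,
    (sumO oT (l ++ l')).eval x = (sumO oT l).eval x + (sumO oT l').eval x
  | [], l' => by
    rw [List.nil_append, evf_nil, zero_add]
  | t :: l, l' => by
    rw [List.cons_append, evf_cons, evf_cons, evf_app x l l', add_assoc]

theorem evf_map (x : ℕ → ℝ) (F : ℕ → Term) : ∀ M : ℕ,
    (sumO oT ((List.range M).map F)).eval x = ∑ v ∈ range M, (F v).eval x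
  | 0 => rfl
  | M + 1 => by
    rw [List.range_succ, List.map_append, evf_app, evf_map x F M, Finset.sum_range_succ,
      List.map_cons, List.map_nil, evf_cons, evf_nil, add_zero]

theorem evf_flat (x : ℕ → ℝ) (F : ℕ → List Term) : ∀ M : ℕ,
    (sumO oT ((List.range M).flatMap F)).eval x = ∑ v ∈ range M, (sumO oT (F v)).eval x
  | 0 => rfl
  | M + 1 => by
    rw [List.range_succ, List.flatMap_append, evf_app, evf_flat x F M, Finset.sum_range_succ,
      List.flatMap_cons, List.flatMap_nil, List.append_nil]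

theorem evf_sum2 (x : ℕ → ℝ) (M : ℕ) (F : ℕ → ℕ → Term) :
    (sum2 oT M F).eval x = ∑ v ∈ range M, ∑ w ∈ range M, (F v w).eval x := by
  unfold sum2
  simp only [evf_flat, evf_map]

theorem evf_sumY (x : ℕ → ℝ) (M : ℕ) (Fs : List SF)
    (F : SF → ℕ → ℕ → ℕ → ℕ → ℕ → Term) :
    (sumY oT M Fs F).eval x = ∑ l ∈ range Fs.length, ∑ v ∈ range M, ∑ w ∈ range M,
      ∑ a ∈ range M, ∑ b ∈ range M, (F (Fs.getD l []) l v w a b).eval x := by
  unfold sumY
  simp only [evf_flat, evf_map]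

theorem evf_cO (x : ℕ → ℝ) (f : SF) (v w : ℕ) : (cO oT f v w).eval x = cR f v w := by
  show (nuO oT (cnt true f v w)).eval x - (nuO oT (cnt false f v w)).eval x = _
  rw [evf_nuO, evf_nuO]
  rfl

theorem evf_zz (x : ℕ → ℝ) (v w : ℕ) : (zz oT v w).eval x = x (2 * v) * x (2 * w) := rfl

theorem evf_CO (x : ℕ → ℝ) (M : ℕ) : ∀ Fs : List SF, (CO oT M Fs).eval x = CC M Fs
  | [] => rfl
  | f :: Fs => by
    have h := evf_CO x M Fs
    unfold CO CC at h ⊢
    rw [List.map_cons, List.map_cons, List.sum_cons, evf_cons, h, evf_sum2]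
    congr 1
    refine Finset.sum_congr rfl fun v _ => Finset.sum_congr rfl fun w _ => ?_
    show (cO oT f v w).eval x * (cO oT f v w).eval x
      + (cO oT f v w).eval x * (cO oT f v w).eval x = _
    rw [evf_cO]
    ring

theorem evf_ball (x : ℕ → ℝ) (M : ℕ) (Fs : List SF) (p : Term) (hp : p.eval x = 0) :
    (ballO oT M Fs p).eval x = ∑ v ∈ range M, x (2 * v) ^ 2 + CC M Fs *
      ∑ l ∈ range Fs.length, ∑ v ∈ range M, ∑ w ∈ range M,
        ∑ a ∈ range M, ∑ b ∈ range M, x (yv l v w a b) ^ 2 := by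
  show (sumO oT ((List.range M).map fun v => zz oT v v)).eval x
    + (CO oT M Fs).eval x * (sumY oT M Fs fun _ l v w a b =>
      oT.mul (oT.var (yv l v w a b)) (oT.var (yv l v w a b))).eval x + p.eval x = _
  rw [hp, add_zero, evf_map, evf_CO, evf_sumY]
  congr 1
  · exact Finset.sum_congr rfl fun v _ => by rw [evf_zz, sq]
  · congr 1
    refine Finset.sum_congr rfl fun l _ => Finset.sum_congr rfl fun v _ =>
      Finset.sum_congr rfl fun w _ => Finset.sum_congr rfl fun a _ =>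
      Finset.sum_congr rfl fun b _ => ?_
    rw [sq]
    rfl

theorem evf_cub (x : ℕ → ℝ) (M : ℕ) (Fs : List SF) (p : Term) (hp : p.eval x = 0) :
    (cubO oT M Fs p).eval x = ∑ l ∈ range Fs.length, ∑ v ∈ range M, ∑ w ∈ range M,
        ∑ a ∈ range M, ∑ b ∈ range M, x (yv l v w a b)
          * (cR (Fs.getD l []) v w * (x (2 * a) * x (2 * b))
            - cR (Fs.getD l []) a b * (x (2 * v) * x (2 * w))) := by
  show (sumY oT M Fs fun f l v w a b => oT.mul (oT.var (yv l v w a b))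
    (oT.sub (oT.mul (cO oT f v w) (zz oT a b)) (oT.mul (cO oT f a b) (zz oT v w)))).eval x
      + p.eval x = _
  rw [hp, add_zero, evf_sumY]
  refine Finset.sum_congr rfl fun l _ => Finset.sum_congr rfl fun v _ =>
      Finset.sum_congr rfl fun w _ => Finset.sum_congr rfl fun a _ =>
      Finset.sum_congr rfl fun b _ => ?_
  show x (yv l v w a b) * ((cO oT (Fs.getD l []) v w).eval x * (zz oT a b).eval x
    - (cO oT (Fs.getD l []) a b).eval x * (zz oT v w).eval x) = _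
  rw [evf_cO, evf_cO, evf_zz, evf_zz]

theorem evf_p2 (x : ℕ → ℝ) : (p2 oT).eval x = 0 := by
  show (0 : ℝ) * _ = 0
  rw [zero_mul]

theorem evf_p3 (x : ℕ → ℝ) : (p3 oT).eval x = 0 := by
  show (0 : ℝ) * _ = 0
  rw [zero_mul]

theorem evf_p4 (x : ℕ → ℝ) : (p4 oT).eval x = 0 := by
  show (0 : ℝ) * _ = 0
  rw [zero_mul]

theorem evf_FF (M : ℕ) (Fs : List SF) (p : Term) (hp : ∀ x : ℕ → ℝ, p.eval x = 0) :
    (∃ x : ℕ → ℝ, (Form.and (Form.le (ballO oT M Fs p) (nuO oT 3))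
      (Form.ge (cubO oT M Fs (p3 oT)) (nuO oT 2))).Holds x)
      ↔ ∃ z y, BallR M Fs z y ∧ CubR M Fs z y := by
  have hh : ∀ x : ℕ → ℝ, (Form.and (Form.le (ballO oT M Fs p) (nuO oT 3))
      (Form.ge (cubO oT M Fs (p3 oT)) (nuO oT 2))).Holds x
      ↔ BallR M Fs (fun v => x (2 * v)) (fun l v w a b => x (yv l v w a b))
        ∧ CubR M Fs (fun v => x (2 * v)) (fun l v w a b => x (yv l v w a b)) := by
    intro x
    show (ballO oT M Fs p).eval x ≤ (nuO oT 3).eval x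
      ∧ (cubO oT M Fs (p3 oT)).eval x ≥ (nuO oT 2).eval x ↔ _
    rw [evf_ball x M Fs p (hp x), evf_cub x M Fs _ (evf_p3 x), evf_nuO, evf_nuO]
    unfold BallR CubR
    push_cast
    exact Iff.rfl
  constructor
  · rintro ⟨x, hx⟩
    exact ⟨_, _, (hh x).1 hx⟩
  · rintro ⟨z, y, h⟩
    let x : ℕ → ℝ := fun k => if k % 2 = 0 then z (k / 2) else
      y (Nat.unpair (k / 2)).1 (Nat.unpair (Nat.unpair (Nat.unpair (k / 2)).2).1).1
        (Nat.unpair (Nat.unpair (Nat.unpair (k / 2)).2).1).2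
        (Nat.unpair (Nat.unpair (Nat.unpair (k / 2)).2).2).1
        (Nat.unpair (Nat.unpair (Nat.unpair (k / 2)).2).2).2
    have h1 : (fun v => x (2 * v)) = z := by
      funext v
      have e1 : 2 * v % 2 = 0 := by omega
      have e2 : 2 * v / 2 = v := by omega
      show (if 2 * v % 2 = 0 then z (2 * v / 2) else _) = z v
      rw [if_pos e1, e2]
    have h2 : (fun l v w a b => x (yv l v w a b)) = y := by
      funext l v w a b
      have e1 : ¬ yv l v w a b % 2 = 0 := by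
        unfold yv
        omega
      have e2 : yv l v w a b / 2 = Nat.pair l (Nat.pair (Nat.pair v w) (Nat.pair a b)) := by
        unfold yv
        omega
      show (if yv l v w a b % 2 = 0 then _ else _) = y l v w a b
      rw [if_neg e1, e2]
      simp only [Nat.unpair_pair]
    refine ⟨x, (hh x).2 ?_⟩
    rw [h1, h2]
    exact h

theorem evf_qO (hLAG : ST_LAG) (M : ℕ) (f : SF) (hf : SFB M [f]) (x : ℕ → ℝ) :
    (qO oT M f).eval x = sval (fun v => x (2 * v)) f := by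
  rw [(hLAG M f _ hf).1]
  show (sum2 oT M fun v w => oT.mul (cO oT f v w) (zz oT v w)).eval x = _
  rw [evf_sum2]
  refine Finset.sum_congr rfl fun v _ => Finset.sum_congr rfl fun w _ => ?_
  show (cO oT f v w).eval x * (zz oT v w).eval x = _
  rw [evf_cO, evf_zz]

theorem evf_sqs (x : ℕ → ℝ) (q : SF → Term) : ∀ Fs : List SF,
    0 ≤ (sumO oT (Fs.map fun f => oT.mul (q f) (q f))).eval x ∧
    ((sumO oT (Fs.map fun f => oT.mul (q f) (q f))).eval x = 0 ↔ ∀ f ∈ Fs, (q f).eval x = 0)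
  | [] => by
    rw [List.map_nil, evf_nil]
    simp
  | f :: Fs => by
    obtain ⟨h1, h2⟩ := evf_sqs x q Fs
    have h3 : (oT.mul (q f) (q f)).eval x = (q f).eval x * (q f).eval x := rfl
    have h4 := mul_self_nonneg ((q f).eval x)
    rw [List.map_cons, evf_cons, h3]
    refine ⟨by linarith, ?_⟩
    rw [List.forall_mem_cons, ← h2]
    constructor
    · intro h
      refine ⟨mul_self_eq_zero.1 (by linarith), by linarith⟩
    · rintro ⟨h5, h6⟩
      rw [h5, h6]
      ring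

theorem evf_F4 (M : ℕ) (Fs : List SF) (x : ℕ → ℝ) :
    (F4 M Fs).Holds x ↔ x 0 = 1 ∧ ∀ f ∈ Fs, (qO oT M f).eval x = 0 := by
  obtain ⟨h1, h2⟩ := evf_sqs x (qO oT M) Fs
  show (x 0 - 1) * (x 0 - 1)
    + (sumO oT (Fs.map fun f => oT.mul (qO oT M f) (qO oT M f))).eval x + (p4 oT).eval x = 0 ↔ _
  rw [evf_p4, add_zero, ← h2]
  have h3 := mul_self_nonneg (x 0 - 1)
  constructor
  · intro h
    refine ⟨?_, by linarith⟩
    have h4 : x 0 - 1 = 0 := mul_self_eq_zero.1 (by linarith)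
    linarith
  · rintro ⟨h5, h6⟩
    rw [h5, h6]
    ring

theorem evf_F2 (M : ℕ) (x : ℕ → ℝ) : ∀ Fs : List SF,
    (F2 M Fs).Holds x ↔ x 0 = 1 ∧ ∀ f ∈ Fs, (qO oT M f).eval x = 0
  | [] => by
    show x 0 = 1 ↔ _
    simp
  | f :: Fs => by
    show (qO oT M f).eval x = 0 ∧ (F2 M Fs).Holds x ↔ _
    rw [evf_F2 M x Fs, List.forall_mem_cons]
    constructor
    · rintro ⟨a, b, c⟩
      exact ⟨b, a, c⟩
    · rintro ⟨b, a, c⟩
      exact ⟨a, b, c⟩

theorem evf_ex (hLAG : ST_LAG) (M : ℕ) (Fs : List SF) (hF : SFB M Fs) (φ : Form)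
    (hφ : ∀ x : ℕ → ℝ, φ.Holds x ↔ x 0 = 1 ∧ ∀ f ∈ Fs, (qO oT M f).eval x = 0) :
    (∃ x : ℕ → ℝ, φ.Holds x) ↔ ∃ z : ℕ → ℝ, z 0 = 1 ∧ ∀ f ∈ Fs, sval z f = 0 := by
  have hs : ∀ f ∈ Fs, SFB M [f] := by
    intro f hf g hg e he
    rw [List.mem_singleton] at hg
    subst hg
    exact hF g hf e he
  constructor
  · rintro ⟨x, hx⟩
    obtain ⟨h0, h1⟩ := (hφ x).1 hx
    refine ⟨fun v => x (2 * v), h0, fun f hf => ?_⟩
    rw [← evf_qO hLAG M f (hs f hf) x]
    exact h1 f hf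
  · rintro ⟨z, h0, h1⟩
    have hz : (fun v => (fun k => z (k / 2)) (2 * v)) = z := by
      funext v
      show z (2 * v / 2) = z v
      congr 1
      omega
    refine ⟨fun k => z (k / 2), (hφ _).2 ⟨by simpa using h0, fun f hf => ?_⟩⟩
    rw [evf_qO hLAG M f (hs f hf), hz]
    exact h1 f hf

theorem st_EVF (hLAG : ST_LAG) : ST_EVF := by
  intro M Fs hF
  exact ⟨evf_FF M Fs (p2 oT) evf_p2, evf_FF M Fs (p3 oT) evf_p3,
    evf_ex hLAG M Fs hF _ (evf_F4 M Fs), evf_ex hLAG M Fs hF _ fun x => evf_F2 M x Fs⟩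

end Pool.Agent.Helper88.DCT
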