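import Pool.Agent.Helper54.DT.StmtsH

/-!
# Common zeros of quadratic forms and the ball (module BALL)
-/

namespace Pool.Agent.Helper88.DCT

open Finset Pool.Agent.Helper54.DT Pool.Agent.Helper54.ETR Pool.Agent.Helper54.Poly
  Pool.Agent.Helper54.DI

theorem ball_list (h : SF → ℝ) : ∀ Fs : List SF,
    (Fs.map h).sum = ∑ l ∈ range Fs.length, h (Fs.getD l [])
  | [] => by simp
  | f :: Fs => by
    rw [List.map_cons, List.sum_cons, ball_list h Fs, List.length_cons, Finset.sum_range_succ']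
    simp [add_comm]

theorem ball_flat (L M : ℕ) (F : ℕ → ℕ → ℕ → ℕ → ℕ → ℝ) :
    ∑ l ∈ range L, ∑ v ∈ range M, ∑ w ∈ range M, ∑ a ∈ range M, ∑ b ∈ range M, F l v w a b
      = ∑ p ∈ range L ×ˢ (range M ×ˢ (range M ×ˢ (range M ×ˢ range M))),
        F p.1 p.2.1 p.2.2.1 p.2.2.2.1 p.2.2.2.2 := by
  simp only [Finset.sum_product]

theorem ball_mem (Fs : List SF) (l : ℕ) (hl : l < Fs.length) : Fs.getD l [] ∈ Fs := by
  rw [List.getD_eq_getElem _ _ hl]
  exact List.getElem_mem _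

theorem ball_mem' (Fs : List SF) (f : SF) (hf : f ∈ Fs) :
    ∃ l, l < Fs.length ∧ Fs.getD l [] = f := by
  obtain ⟨l, hl, h⟩ := List.mem_iff_getElem.1 hf
  exact ⟨l, hl, by rw [List.getD_eq_getElem _ _ hl, h]⟩

theorem ball_q (hLAG : ST_LAG) (M : ℕ) (Fs : List SF) (hF : SFB M Fs) (z : ℕ → ℝ) :
    ∑ l ∈ range Fs.length, ∑ v ∈ range M, ∑ w ∈ range M, ∑ a ∈ range M, ∑ b ∈ range M,
      (cR (Fs.getD l []) v w * (z a * z b) - cR (Fs.getD l []) a b * (z v * z w)) ^ 2
    = CC M Fs * (∑ v ∈ range M, z v ^ 2) ^ 2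
      - 2 * ∑ l ∈ range Fs.length, sval z (Fs.getD l []) ^ 2 := by
  unfold CC
  rw [ball_list, Finset.sum_mul, Finset.mul_sum, ← Finset.sum_sub_distrib]
  refine Finset.sum_congr rfl fun l hl => ?_
  have hm := ball_mem Fs l (Finset.mem_range.1 hl)
  have h := (hLAG M (Fs.getD l []) z (fun f hf e he => by
    rw [List.mem_singleton] at hf
    subst hf
    exact hF _ hm e he)).2
  rw [h]
  have h1 : ∑ v ∈ range M, ∑ w ∈ range M, 2 * cR (Fs.getD l []) v w ^ 2
      = 2 * ∑ v ∈ range M, ∑ w ∈ range M, cR (Fs.getD l []) v w ^ 2 := by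
    simp only [Finset.mul_sum]
  rw [h1]
  ring

theorem ball_hom (t : ℝ) (z : ℕ → ℝ) (f : SF) : sval (fun v => t * z v) f = t ^ 2 * sval z f := by
  unfold sval
  rw [← List.sum_map_mul_left]
  congr 1
  refine List.map_congr_left fun e _ => ?_
  ring

theorem st_BALL (hLAG : ST_LAG) : ST_BALL := by
  intro M Fs hF hC
  constructor
  · rintro ⟨z, ⟨v0, hv0, hz0⟩, hz⟩
    have hρ : 0 < ∑ v ∈ range M, z v ^ 2 := by
      refine Finset.sum_pos' (fun v _ => sq_nonneg _) ⟨v0, Finset.mem_range.2 hv0, ?_⟩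
      positivity
    obtain ⟨t, ht⟩ : ∃ t : ℝ, t ^ 2 * ∑ v ∈ range M, z v ^ 2 = 2 := by
      refine ⟨√(2 / ∑ v ∈ range M, z v ^ 2), ?_⟩
      rw [Real.sq_sqrt (by positivity)]
      field_simp
    obtain ⟨w, hw⟩ : ∃ w : ℕ → ℝ, ∀ v, w v = t * z v := ⟨_, fun v => rfl⟩
    have hw' : w = fun v => t * z v := funext hw
    have hwρ : ∑ v ∈ range M, w v ^ 2 = 2 := by
      rw [← ht, Finset.mul_sum]
      exact Finset.sum_congr rfl fun v _ => by rw [hw]; ring
    have hwT : ∑ l ∈ range Fs.length, sval w (Fs.getD l []) ^ 2 = 0 := by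
      refine Finset.sum_eq_zero fun l hl => ?_
      rw [hw', ball_hom, hz _ (ball_mem Fs l (Finset.mem_range.1 hl))]
      ring
    have hq := ball_q hLAG M Fs hF w
    rw [hwρ, hwT] at hq
    refine ⟨w, fun l v' w' a b => (cR (Fs.getD l []) v' w' * (w a * w b)
      - cR (Fs.getD l []) a b * (w v' * w w')) / (2 * CC M Fs), ?_, ?_⟩
    · unfold BallR
      have h1 : ∑ l ∈ range Fs.length, ∑ v ∈ range M, ∑ w' ∈ range M, ∑ a ∈ range M,
          ∑ b ∈ range M, ((cR (Fs.getD l []) v w' * (w a * w b)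
            - cR (Fs.getD l []) a b * (w v * w w')) / (2 * CC M Fs)) ^ 2
          = (CC M Fs * 2 ^ 2 - 2 * 0) / (2 * CC M Fs) ^ 2 := by
        rw [← hq]
        simp only [Finset.sum_div, div_pow]
      rw [h1, hwρ]
      have h2 : CC M Fs * ((CC M Fs * 2 ^ 2 - 2 * 0) / (2 * CC M Fs) ^ 2) = 1 := by
        field_simp
        ring
      rw [h2]
      norm_num
    · unfold CubR
      have h1 : ∑ l ∈ range Fs.length, ∑ v ∈ range M, ∑ w' ∈ range M, ∑ a ∈ range M,
          ∑ b ∈ range M, (cR (Fs.getD l []) v w' * (w a * w b)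
            - cR (Fs.getD l []) a b * (w v * w w')) / (2 * CC M Fs)
            * (cR (Fs.getD l []) v w' * (w a * w b)
            - cR (Fs.getD l []) a b * (w v * w w'))
          = (CC M Fs * 2 ^ 2 - 2 * 0) / (2 * CC M Fs) := by
        rw [← hq]
        simp only [Finset.sum_div]
        refine Finset.sum_congr rfl fun l _ => Finset.sum_congr rfl fun v _ =>
          Finset.sum_congr rfl fun w' _ => Finset.sum_congr rfl fun a _ =>
          Finset.sum_congr rfl fun b _ => ?_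
        ring
      rw [h1]
      refine le_of_eq ?_
      field_simp
      ring
  · rintro ⟨z, y, hB, hG⟩
    have hq := ball_q hLAG M Fs hF z
    unfold BallR at hB
    unfold CubR at hG
    rw [ball_flat] at hB
    rw [ball_flat Fs.length M fun l v w a b => y l v w a b
      * (cR (Fs.getD l []) v w * (z a * z b) - cR (Fs.getD l []) a b * (z v * z w))] at hG
    rw [ball_flat Fs.length M fun l v w a b =>
      (cR (Fs.getD l []) v w * (z a * z b) - cR (Fs.getD l []) a b * (z v * z w)) ^ 2] at hq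
    have hcs := Finset.sum_mul_sq_le_sq_mul_sq
      (range Fs.length ×ˢ (range M ×ˢ (range M ×ˢ (range M ×ˢ range M))))
      (fun p => y p.1 p.2.1 p.2.2.1 p.2.2.2.1 p.2.2.2.2)
      (fun p => cR (Fs.getD p.1 []) p.2.1 p.2.2.1 * (z p.2.2.2.1 * z p.2.2.2.2)
        - cR (Fs.getD p.1 []) p.2.2.2.1 p.2.2.2.2 * (z p.2.1 * z p.2.2.1))
    rw [hq] at hcs
    have hT : 0 ≤ ∑ l ∈ range Fs.length, sval z (Fs.getD l []) ^ 2 :=
      Finset.sum_nonneg fun l _ => sq_nonneg _
    have hρ : 0 ≤ ∑ v ∈ range M, z v ^ 2 := Finset.sum_nonneg fun v _ => sq_nonneg _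
    have hS : 0 ≤ ∑ p ∈ range Fs.length ×ˢ (range M ×ˢ (range M ×ˢ (range M ×ˢ range M))),
        y p.1 p.2.1 p.2.2.1 p.2.2.2.1 p.2.2.2.2 ^ 2 := Finset.sum_nonneg fun p _ => sq_nonneg _
    generalize hSd : (∑ p ∈ range Fs.length ×ˢ (range M ×ˢ (range M ×ˢ (range M ×ˢ range M))),
        y p.1 p.2.1 p.2.2.1 p.2.2.2.1 p.2.2.2.2 ^ 2) = S at hcs hB hS
    generalize hTd : (∑ l ∈ range Fs.length, sval z (Fs.getD l []) ^ 2) = T at hcs hT
    generalize hρd : (∑ v ∈ range M, z v ^ 2) = ρ at hcs hB hρ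
    have h4 : (4 : ℝ) ≤ S * (CC M Fs * ρ ^ 2 - 2 * T) := by
      refine le_trans ?_ hcs
      nlinarith
    have h5 : CC M Fs * S * ρ ^ 2 ≤ 4 := by
      have h6 : CC M Fs * S * ρ ^ 2 ≤ (3 - ρ) * ρ ^ 2 :=
        mul_le_mul_of_nonneg_right (by linarith) (sq_nonneg _)
      have h7 : 0 ≤ (ρ - 2) ^ 2 * (ρ + 1) := by positivity
      nlinarith
    have hS0 : S ≠ 0 := by
      intro h
      rw [h] at h4
      norm_num at h4
    have hSp : 0 < S := lt_of_le_of_ne hS (Ne.symm hS0)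
    have hST : 0 ≤ S * T := mul_nonneg hS hT
    have hT0 : T = 0 := by
      have h8 : S * T = 0 := by nlinarith
      rcases mul_eq_zero.1 h8 with h | h
      · exact absurd h hS0
      · exact h
    refine ⟨z, ?_, ?_⟩
    · by_contra hcon
      push Not at hcon
      have h9 : ρ = 0 := by
        rw [← hρd]
        refine Finset.sum_eq_zero fun v hv => ?_
        rw [hcon v (Finset.mem_range.1 hv)]
        norm_num
      rw [h9, hT0] at h4
      norm_num at h4
    · intro f hf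
      obtain ⟨l, hl, rfl⟩ := ball_mem' Fs f hf
      rw [hT0] at hTd
      have h9 := (Finset.sum_eq_zero_iff_of_nonneg (fun l _ => sq_nonneg _)).1 hTd l
        (Finset.mem_range.2 hl)
      exact pow_eq_zero_iff (two_ne_zero) |>.1 h9

end Pool.Agent.Helper88.DCT
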